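import Pool.Agent.N621.NP.Assemble

/-!
# 2-near perfect numbers of the form `2^k p^m`, `m ≥ 3`

Complete classification: for `k ≥ 1`, an odd prime `p` and `m ≥ 3` the number `2^k p^m` is 2-near
perfect if and only if `m = 3` and `p = 2^(k+1) - 1`, and then the omitted divisors are `p` and
`p^2`. Hence there are none with `m ≥ 4`, those with `m = 3` correspond to the Mersenne primes, and
the finiteness asked for in Q1 is equivalent to the finiteness of the set of Mersenne primes.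
-/

namespace Pool.Agent.Results.MP_24a6f7_nt.Classification

open Finset Pool.Agent.N621.NP

/-- `n` is 2-near perfect: `σ(n) = 2n + d₁ + d₂` for two distinct positive divisors of `n`. -/
def TwoNearPerfect (n : ℕ) : Prop :=
  ∃ d₁ ∈ n.divisors, ∃ d₂ ∈ n.divisors, d₁ ≠ d₂ ∧ ∑ d ∈ n.divisors, d = 2 * n + d₁ + d₂

/-- The 2-near perfect numbers `2^k p^m` with `k ≥ 1` and `p` an odd prime. -/
def Numbers (m : ℕ) : Set ℕ :=
  {n | TwoNearPerfect n ∧ ∃ k p : ℕ, 1 ≤ k ∧ p.Prime ∧ p ≠ 2 ∧ n = 2 ^ k * p ^ m}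

lemma sum_div (k p m : ℕ) (hp : p.Prime) (hp2 : p ≠ 2) :
    ((∑ d ∈ (2 ^ k * p ^ m).divisors, d : ℕ) : ℤ) = (2 ^ (k + 1) - 1) * G p (m + 1) := by
  have hcop : Nat.Coprime (2 ^ k) (p ^ m) :=
    Nat.Coprime.pow _ _ ((Nat.coprime_primes Nat.prime_two hp).mpr (Ne.symm hp2))
  rw [Nat.Coprime.sum_divisors_mul hcop, Nat.sum_divisors_prime_pow Nat.prime_two,
    Nat.sum_divisors_prime_pow hp]
  push_cast
  have h2 := G_mul 2 (k + 1)
  unfold G at h2 ⊢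
  rw [← h2]
  ring

lemma dvd_form (k p m d : ℕ) (hp : p.Prime) (hd : d ∣ 2 ^ k * p ^ m) :
    ∃ a b : ℕ, a ≤ k ∧ b ≤ m ∧ d = 2 ^ a * p ^ b := by
  obtain ⟨u, v, hu, hv, rfl⟩ := (Nat.dvd_mul).mp hd
  obtain ⟨a, ha, rfl⟩ := (Nat.dvd_prime_pow Nat.prime_two).mp hu
  obtain ⟨b, hb, rfl⟩ := (Nat.dvd_prime_pow hp).mp hv
  exact ⟨a, b, ha, hb, rfl⟩

theorem classify (k p m d₁ d₂ : ℕ) (hp : p.Prime) (hp2 : p ≠ 2) (hm : 3 ≤ m)
    (h1 : d₁ ∣ 2 ^ k * p ^ m) (h2 : d₂ ∣ 2 ^ k * p ^ m) (hlt : d₁ < d₂) :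
    ∑ d ∈ (2 ^ k * p ^ m).divisors, d = 2 * (2 ^ k * p ^ m) + d₁ + d₂ ↔
      m = 3 ∧ p + 1 = 2 ^ (k + 1) ∧ d₁ = p ∧ d₂ = p ^ 2 := by
  have hp3 : 3 ≤ p := by
    have := hp.two_le
    omega
  have hpo : Odd (p : ℤ) := by
    have := hp.odd_of_ne_two hp2
    exact_mod_cast this
  have hp3' : (3 : ℤ) ≤ p := by exact_mod_cast hp3
  have hsum := sum_div k p m hp hp2
  obtain ⟨n, rfl⟩ : ∃ n, m = n + 3 := ⟨m - 3, by omega⟩
  have hG : G p (n + 3 + 1) = G p (n + 3) + (p : ℤ) ^ (n + 3) := G_succ _ _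
  have hm3 := G_mul p (n + 3)
  constructor
  · intro h
    obtain ⟨a, b, ha, hb, rfl⟩ := dvd_form k p _ d₁ hp h1
    obtain ⟨c, d, hc, hd, rfl⟩ := dvd_form k p _ d₂ hp h2
    have hne : ¬ (a = c ∧ b = d) := by
      rintro ⟨rfl, rfl⟩
      exact lt_irrefl _ hlt
    rw [h] at hsum
    push_cast at hsum
    have e1 : (2 : ℤ) ^ (k + 1) = 2 ^ k * 2 := pow_succ _ _
    have key : ((2 : ℤ) ^ (k + 1) - p) * G p (n + 3) = 1 + 2 ^ a * p ^ b + 2 ^ c * p ^ d := by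
      rw [hG] at hsum
      rw [e1] at hsum ⊢
      linear_combination -hsum - hm3
    rcases le_total b d with hbd | hbd
    · obtain ⟨h3, h4, h5, h6, h7, h8⟩ := core p hp3' hpo n k a b c d ha hc hbd hd hne key
      subst h3 h5 h6 h7 h8
      refine ⟨rfl, ?_, by simp, by simp⟩
      have : (p : ℤ) + 1 = 2 ^ (k + 1) := h4.symm
      exact_mod_cast this
    · exfalso
      obtain ⟨h3, h4, h5, h6, h7, h8⟩ := core p hp3' hpo n k c d a b hc ha hbd hb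
        (fun hh => hne ⟨hh.1.symm, hh.2.symm⟩) (by linear_combination key)
      subst h3 h5 h6 h7 h8
      simp only [pow_zero, one_mul, pow_one] at hlt
      nlinarith
  · rintro ⟨h3, h4, rfl, rfl⟩
    have hn : n = 0 := by omega
    subst hn
    have h4' : (2 : ℤ) ^ (k + 1) = d₁ + 1 := by
      have : ((d₁ + 1 : ℕ) : ℤ) = ((2 ^ (k + 1) : ℕ) : ℤ) := by rw [h4]
      push_cast at this
      exact this.symm
    have e1 : (2 : ℤ) ^ (k + 1) = 2 ^ k * 2 := pow_succ _ _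
    have hG4 : G d₁ (0 + 3 + 1) = 1 + d₁ + (d₁ : ℤ) ^ 2 + (d₁ : ℤ) ^ 3 := by
      rw [G_succ, G_succ, G_succ, G_succ, G_zero]; ring
    rw [hG4, h4'] at hsum
    have e2 : (2 : ℤ) ^ k * 2 = d₁ + 1 := by rw [← e1, h4']
    have : ((∑ d ∈ (2 ^ k * d₁ ^ (0 + 3)).divisors, d : ℕ) : ℤ) =
        ((2 * (2 ^ k * d₁ ^ (0 + 3)) + d₁ + d₁ ^ 2 : ℕ) : ℤ) := by
      rw [hsum]
      push_cast
      linear_combination -(d₁ : ℤ) ^ 3 * e2
    exact_mod_cast this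

theorem classify' (k p m : ℕ) (hk : 1 ≤ k) (hp : p.Prime) (hp2 : p ≠ 2) (hm : 3 ≤ m) :
    TwoNearPerfect (2 ^ k * p ^ m) ↔ m = 3 ∧ p + 1 = 2 ^ (k + 1) := by
  constructor
  · rintro ⟨d₁, h1, d₂, h2, hne, h⟩
    have h1' := (Nat.mem_divisors.mp h1).1
    have h2' := (Nat.mem_divisors.mp h2).1
    rcases Nat.lt_or_gt_of_ne hne with hlt | hlt
    · obtain ⟨h3, h4, -, -⟩ := (classify k p m d₁ d₂ hp hp2 hm h1' h2' hlt).mp h
      exact ⟨h3, h4⟩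
    · obtain ⟨h3, h4, -, -⟩ := (classify k p m d₂ d₁ hp hp2 hm h2' h1' hlt).mp
        (by rw [h]; ring)
      exact ⟨h3, h4⟩
  · rintro ⟨rfl, h4⟩
    have hn0 : 2 ^ k * p ^ 3 ≠ 0 := by
      have := hp.pos
      positivity
    have h1 : p ∣ 2 ^ k * p ^ 3 := Dvd.dvd.mul_left (dvd_pow_self p (by norm_num)) _
    have h2 : p ^ 2 ∣ 2 ^ k * p ^ 3 := Dvd.dvd.mul_left (pow_dvd_pow p (by norm_num)) _
    have hlt : p < p ^ 2 := by
      have := hp.two_le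
      nlinarith
    exact ⟨p, Nat.mem_divisors.mpr ⟨h1, hn0⟩, p ^ 2, Nat.mem_divisors.mpr ⟨h2, hn0⟩, hlt.ne,
      (classify k p 3 p (p ^ 2) hp hp2 le_rfl h1 h2 hlt).mpr ⟨rfl, h4, rfl, rfl⟩⟩

lemma two_le_of_prime {q : ℕ} (hq : (2 ^ q - 1).Prime) : 2 ≤ q := by
  by_contra hc
  have : q = 0 ∨ q = 1 := by omega
  rcases this with rfl | rfl
  · exact absurd hq (by norm_num)
  · exact absurd hq (by norm_num)

lemma numbers_three :
    Numbers 3 = (fun q => 2 ^ (q - 1) * (2 ^ q - 1) ^ 3) '' {q : ℕ | (2 ^ q - 1).Prime} := by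
  ext n
  constructor
  · rintro ⟨hn, k, p, hk, hp, hp2, rfl⟩
    obtain ⟨-, h4⟩ := (classify' k p 3 hk hp hp2 le_rfl).mp hn
    have hp' : p = 2 ^ (k + 1) - 1 := by omega
    refine ⟨k + 1, ?_, ?_⟩
    · show (2 ^ (k + 1) - 1).Prime
      rw [← hp']; exact hp
    · simp only [Nat.add_sub_cancel]
      rw [← hp']
  · rintro ⟨q, hq, rfl⟩
    have hq' : (2 ^ q - 1).Prime := hq
    have h2 := two_le_of_prime hq'
    obtain ⟨k, rfl⟩ : ∃ k, q = k + 1 := ⟨q - 1, by omega⟩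
    have hpow : 2 ^ (k + 1) = 2 * 2 ^ k := by rw [pow_succ]; ring
    have hpos : 0 < 2 ^ k := by positivity
    have hne2 : 2 ^ (k + 1) - 1 ≠ 2 := by omega
    refine ⟨?_, k, 2 ^ (k + 1) - 1, by omega, hq', hne2, rfl⟩
    exact (classify' k _ 3 (by omega) hq' hne2 le_rfl).mpr ⟨rfl, by omega⟩

lemma inj : Set.InjOn (fun q => 2 ^ (q - 1) * (2 ^ q - 1) ^ 3) {q : ℕ | (2 ^ q - 1).Prime} := by
  intro q₁ h₁ q₂ h₂ h
  have h₁' : (2 ^ q₁ - 1).Prime := h₁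
  have h₂' : (2 ^ q₂ - 1).Prime := h₂
  have l₁ := two_le_of_prime h₁'
  have l₂ := two_le_of_prime h₂'
  have odd : ∀ q : ℕ, 2 ≤ q → Odd ((((2 ^ q - 1) ^ 3 : ℕ)) : ℤ) := by
    intro q hq
    have : Odd (2 ^ q - 1) := by
      obtain ⟨r, rfl⟩ : ∃ r, q = r + 1 := ⟨q - 1, by omega⟩
      refine ⟨2 ^ r - 1, ?_⟩
      have hpow : 2 ^ (r + 1) = 2 * 2 ^ r := by rw [pow_succ]; ring
      have hpos : 0 < 2 ^ r := by positivity
      omega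
    exact_mod_cast this.pow
  have h' : (2 : ℤ) ^ (q₁ - 1) * (((2 ^ q₁ - 1) ^ 3 : ℕ) : ℤ) =
      2 ^ (q₂ - 1) * (((2 ^ q₂ - 1) ^ 3 : ℕ) : ℤ) := by
    have : (((2 ^ (q₁ - 1) * (2 ^ q₁ - 1) ^ 3 : ℕ)) : ℤ) =
        ((2 ^ (q₂ - 1) * (2 ^ q₂ - 1) ^ 3 : ℕ) : ℤ) := by exact_mod_cast h
    rwa [Nat.cast_mul, Nat.cast_mul, Nat.cast_pow 2, Nat.cast_pow 2] at this
  obtain ⟨h3, -⟩ := two_pow_odd _ _ _ _ (odd q₁ l₁) (odd q₂ l₂) h'
  omega

/-- Complete classification of the 2-near perfect numbers `2^k p^m` with `m ≥ 3`, and the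
equivalence of Q1 with the finiteness of the set of Mersenne primes. -/
theorem result :
    (∀ k p m d₁ d₂ : ℕ, 1 ≤ k → p.Prime → p ≠ 2 → 3 ≤ m → d₁ ∣ 2 ^ k * p ^ m →
      d₂ ∣ 2 ^ k * p ^ m → d₁ < d₂ →
      (∑ d ∈ (2 ^ k * p ^ m).divisors, d = 2 * (2 ^ k * p ^ m) + d₁ + d₂ ↔
        m = 3 ∧ p + 1 = 2 ^ (k + 1) ∧ d₁ = p ∧ d₂ = p ^ 2)) ∧
    (∀ k p m : ℕ, 1 ≤ k → p.Prime → p ≠ 2 → 3 ≤ m →
      (TwoNearPerfect (2 ^ k * p ^ m) ↔ m = 3 ∧ p + 1 = 2 ^ (k + 1))) ∧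
    (∀ m : ℕ, 4 ≤ m → Numbers m = ∅) ∧
    ((Numbers 3).Infinite ↔ {q : ℕ | (2 ^ q - 1).Prime}.Infinite) ∧
    ((∀ m : ℕ, 3 ≤ m → (Numbers m).Finite) ↔ {q : ℕ | (2 ^ q - 1).Prime}.Finite) := by
  have hempty : ∀ m : ℕ, 4 ≤ m → Numbers m = ∅ := by
    intro m hm
    ext n
    simp only [Set.mem_empty_iff_false, iff_false]
    rintro ⟨hn, k, p, hk, hp, hp2, rfl⟩
    have := ((classify' k p m hk hp hp2 (by omega)).mp hn).1
    omega
  have hfin : (Numbers 3).Finite ↔ {q : ℕ | (2 ^ q - 1).Prime}.Finite := by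
    rw [numbers_three, Set.finite_image_iff inj]
  refine ⟨fun k p m d₁ d₂ hk hp hp2 hm h1 h2 hlt => classify k p m d₁ d₂ hp hp2 hm h1 h2 hlt,
    fun k p m hk hp hp2 hm => classify' k p m hk hp hp2 hm, hempty, ?_, ?_⟩
  · exact not_congr hfin
  · constructor
    · intro h
      exact hfin.mp (h 3 le_rfl)
    · intro h m hm
      rcases eq_or_ne m 3 with rfl | hne
      · exact hfin.mpr h
      · rw [hempty m (by omega)]
        exact Set.finite_empty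

end Pool.Agent.Results.MP_24a6f7_nt.Classification
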